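import Pool.Agent.helper62.DP7.Hand
import Pool.Agent.helper27.D7.CO1
import Pool.Agent.helper29.D7.GIR
import Pool.Agent.helper30.D7.FAN
import Pool.Agent.helper33.D7.CO2
import Pool.Agent.helper5.D7.IND
import Pool.Agent.helper51.D7.UNC
import Pool.Agent.helper53.D7.CO4
import Pool.Agent.helper59.D7.COR
import Pool.Agent.helper61.D7.GRD
import Pool.Agent.helper63.D7.LST
import Pool.Agent.helper66.D7.DEG
import Pool.Agent.helper68.D7.CO3
import Pool.Agent.helper75.D7.DIS
import Pool.Agent.helper85.D7.OUT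
import Pool.Agent.helper87.D7.CO5

set_option autoImplicit false

namespace Pool.Agent.helper62.DP7

theorem OUT_pf : OUT_stmt := OUT DEG
theorem IND_pf : IND_stmt := IND (CO1 UNC GRD OUT_pf) (CO2 UNC GRD OUT_pf) (CO3 UNC GRD OUT_pf) (CO4 UNC GRD OUT_pf)
  (CO5 UNC GRD OUT_pf (COR LST FAN)) DIS
theorem GIR_pf : GIR_stmt := GIR

end Pool.Agent.helper62.DP7
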