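import Pool.Agent.helper62.DP7.Spec

set_option autoImplicit false

namespace Pool.Agent.helper62.DP7

open Finset

/-- The number of the ordered pairs of adjacent vertices of `A` is the sum of the degrees. -/
theorem HND_sum {V : Type} (G : SimpleGraph V) (A : Finset V) :
    ({p : V × V | p.1 ∈ A ∧ p.2 ∈ A ∧ G.Adj p.1 p.2}.ncard) = ∑ x ∈ A, (nb G A x).card := by
  classical
  have h1 : {p : V × V | p.1 ∈ A ∧ p.2 ∈ A ∧ G.Adj p.1 p.2} = ((A.sigma (fun x => nb G A x)).map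
      ⟨fun s : (_ : V) × V => (s.1, s.2), by
        rintro ⟨a, b⟩ ⟨c, d⟩ h
        simp only [Prod.mk.injEq] at h
        obtain ⟨rfl, rfl⟩ := h
        rfl⟩ : Finset (V × V)) := by
    ext ⟨a, b⟩
    simp only [Set.mem_ofPred_eq, coe_map, Function.Embedding.coeFn_mk, Set.mem_image, mem_coe, mem_sigma, mem_nb, Prod.mk.injEq, Sigma.exists]
    constructor
    · rintro ⟨ha, hb, hab⟩
      exact ⟨a, b, ⟨ha, hb, hab⟩, rfl, rfl⟩
    · rintro ⟨a', b', ⟨ha, hb, hab⟩, rfl, rfl⟩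
      exact ⟨ha, hb, hab⟩
  rw [h1, Set.ncard_coe_finset, card_map, card_sigma]

theorem HND_deg {V : Type} [Fintype V] (G : SimpleGraph V) (h3 : ∀ x, (G.neighborSet x).ncard ≤ 3) (A : Finset V) (x : V) : (nb G A x).card ≤ 3 := by
  refine le_trans ?_ (h3 x)
  rw [← Set.ncard_coe_finset]
  refine Set.ncard_le_ncard ?_ (Set.toFinite _)
  intro u hu
  exact (mem_nb.1 (mem_coe.1 hu)).2

end Pool.Agent.helper62.DP7
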