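import Mathlib

/-!
# Project d7 (MP_e3efbc_co): the square of a sparse subcubic graph has DP-chromatic number at most seven

THEOREM. Let `G` be a finite graph with all degrees at most three, no cycle of length 3, 4 or 5, and `6 * ∑_{x ∈ A} deg_A x < 17 * #A` for all nonempty sets `A` of vertices
(maximum average degree less than 17/6). Then every 7-fold cover of the square of `G` has a colouring.

All graphs are the induced graphs on finite sets `A`: `nb G A v` are the neighbours of `v` in `A`, `sq G A u v`: the distance of `u`, `v` in `G[A]` is one or two.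
`Col G R L A B`: there is a colouring `f` of `B` from the lists `L` which is proper for the pairs with `sq G A u v` (the set `A` is for the graph, `B` is the set of the coloured vertices).

RULES. Row `d7:XXX`: file `Pool/Agent/<seat>/D7/XXX.lean`, `import Pool.Agent.helper62.DP7.Spec`, `set_option autoImplicit false`, `namespace Pool.Agent.helper62.DP7`,
theorem `XXX (h1 : YYY_stmt) ... : XXX_stmt` with the `_stmt` listed under `uses` as hypotheses. Auxiliary lemmas prefixed `XXX_`. No straight double quotes, no extra axioms.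
Land, note = DONE + path. A doubt about a statement: one line to helper62 at once.
-/

set_option autoImplicit false

namespace Pool.Agent.helper62.DP7

open Finset

/-- The neighbours of `v` in `A`. -/
noncomputable def nb {V : Type} (G : SimpleGraph V) (A : Finset V) (v : V) : Finset V := by
  classical exact A.filter (fun u => G.Adj v u)

/-- `u ≠ v` are adjacent or have a common neighbour in `A`. -/
def sq {V : Type} (G : SimpleGraph V) (A : Finset V) (u v : V) : Prop :=
  u ≠ v ∧ (G.Adj u v ∨ ∃ c ∈ A, G.Adj u c ∧ G.Adj c v)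

/-- The `sq G A`-neighbours of `z` in `B`. -/
noncomputable def qn {V : Type} (G : SimpleGraph V) (A B : Finset V) (z : V) : Finset V := by
  classical exact B.filter (fun x => sq G A z x)

theorem mem_nb {V : Type} {G : SimpleGraph V} {A : Finset V} {v u : V} : u ∈ nb G A v ↔ u ∈ A ∧ G.Adj v u := by
  unfold nb; simp

theorem mem_qn {V : Type} {G : SimpleGraph V} {A B : Finset V} {z x : V} : x ∈ qn G A B z ↔ x ∈ B ∧ sq G A z x := by
  unfold qn; simp

theorem sq_symm {V : Type} {G : SimpleGraph V} {A : Finset V} {u v : V} (h : sq G A u v) : sq G A v u := by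
  obtain ⟨h1, h2⟩ := h
  refine ⟨h1.symm, ?_⟩
  rcases h2 with h | ⟨c, hc, h3, h4⟩
  · exact Or.inl h.symm
  · exact Or.inr ⟨c, hc, h4.symm, h3.symm⟩

/-- Seven colours at every vertex, matchings between any two lists. -/
structure Cov {V W : Type} (R : W → W → Prop) (L : V → Finset W) : Prop where
  symm : ∀ a b, R a b → R b a
  mat : ∀ u v, u ≠ v → ∀ a ∈ L u, ∀ b ∈ L v, ∀ b' ∈ L v, R a b → R a b' → b = b'
  big : ∀ v, 7 ≤ (L v).card

/-- A proper colouring of `B` (with respect to the square of `G[A]`). -/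
def Col {V W : Type} (G : SimpleGraph V) (R : W → W → Prop) (L : V → Finset W) (A B : Finset V) : Prop :=
  ∃ f : V → W, (∀ v ∈ B, f v ∈ L v) ∧ ∀ u ∈ B, ∀ v ∈ B, sq G A u v → ¬ R (f u) (f v)

/-- No closed walks of length 3 and 5, no cycle of length 4. -/
structure G6 {V : Type} (G : SimpleGraph V) : Prop where
  c3 : ∀ x y z, G.Adj x y → G.Adj y z → G.Adj z x → False
  c4 : ∀ x y z y', G.Adj x y → G.Adj y z → G.Adj x y' → G.Adj y' z → x ≠ z → y = y'
  c5 : ∀ x y z s t, G.Adj x y → G.Adj y z → G.Adj z s → G.Adj s t → G.Adj t x → False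

/-- Degrees two and three; a vertex has at most one neighbour of degree two, none if its degree is two; two adjacent vertices do not both have neighbours of degree two. -/
structure Red {V : Type} (G : SimpleGraph V) (A : Finset V) : Prop where
  le3 : ∀ x ∈ A, (nb G A x).card ≤ 3
  ge2 : ∀ x ∈ A, 2 ≤ (nb G A x).card
  one : ∀ x ∈ A, ∀ y ∈ nb G A x, ∀ z ∈ nb G A x, (nb G A y).card = 2 → (nb G A z).card = 2 → y = z
  sep : ∀ x ∈ A, (nb G A x).card = 2 → ∀ y ∈ nb G A x, (nb G A y).card = 3

/-- No two adjacent vertices with neighbours of degree two. -/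
def Far {V : Type} (G : SimpleGraph V) (A : Finset V) : Prop :=
  ∀ u ∈ A, ∀ u' ∈ A, G.Adj u u' → ∀ v ∈ nb G A u, ∀ v' ∈ nb G A u', (nb G A v).card = 2 → (nb G A v').card = 2 → False

/-- `u` has a neighbour of degree two. -/
def T8 {V : Type} (G : SimpleGraph V) (A : Finset V) (u : V) : Prop := ∃ v ∈ nb G A u, (nb G A v).card = 2

/-! ## The tools -/

/-- **UNC** (short). uses: nothing. Take the same `f`. If `u, v ∈ A \ S'` have the common neighbour `c ∈ A` then `c ∉ S` (otherwise `u ∈ nb G A c ⊆ S'`), so `c ∈ A \ S`. -/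
def UNC_stmt : Prop := ∀ (V W : Type) [DecidableEq V] (G : SimpleGraph V) (R : W → W → Prop) (L : V → Finset W) (A S S' : Finset V), S ⊆ S' →
  (∀ s ∈ S, nb G A s ⊆ S') → Col G R L (A \ S) (A \ S) → Col G R L A (A \ S')

/-- **GRD** (short). uses: nothing. If `z ∈ B`: nothing to do. Otherwise every `x ∈ qn G A B z` forbids at most one colour of `L z` (`mat` for `x`, `z`), so one of the seven colours
is left; `Function.update f z c`. Use `symm`. -/
def GRD_stmt : Prop := ∀ (V W : Type) [DecidableEq V] (G : SimpleGraph V) (R : W → W → Prop) (L : V → Finset W), Cov R L → ∀ (A B : Finset V) (z : V),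
  Col G R L A B → (qn G A B z).card ≤ 6 → Col G R L A (insert z B)

/-- **LST** (short). uses: nothing. The colours of `L z` which are not forbidden by the coloured vertices: for the given colouring `f` of `B`, `L' = {c ∈ L z | ∀ x ∈ qn G A B z, ¬ R (f x) c}` has at least
`7 - #(qn G A B z)` elements. -/
def LST_stmt : Prop := ∀ (V W : Type) (G : SimpleGraph V) (R : W → W → Prop) (L : V → Finset W), Cov R L → ∀ (A B : Finset V) (z : V), z ∉ B →
  ∀ f : V → W, (∀ v ∈ B, f v ∈ L v) → ∃ L' ⊆ L z, 7 ≤ L'.card + (qn G A B z).card ∧ ∀ c ∈ L', ∀ x ∈ qn G A B z, ¬ R (f x) c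

/-- **DEG** (short). uses: nothing. `qn G A A z` is contained in the union of the sets `insert y ((nb G A y).erase z)`, `y ∈ nb G A z`, and `z ∈ nb G A y`, so this set has at most
`#(nb G A y)` elements. -/
def DEG_stmt : Prop := ∀ (V : Type) (G : SimpleGraph V) (A : Finset V) (z : V), z ∈ A → (qn G A A z).card ≤ ∑ y ∈ nb G A z, (nb G A y).card

/-- **OUT** (short). uses: `DEG_stmt`. The bound for the coloured neighbours: `m` is the sum of the degrees of the neighbours of `z`; `T` a set of vertices which are not in `B`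
and are neighbours of `z` in the square. (`qn G A B z` and `T` are disjoint subsets of `qn G A A z`.) The special cases: all degrees at most `3`. -/
def OUT_stmt : Prop := ∀ (V : Type) (G : SimpleGraph V) (A B T : Finset V) (z : V), z ∈ A → B ⊆ A → T ⊆ A → Disjoint T B → (∀ x ∈ T, sq G A z x) →
  ((qn G A B z).card + T.card ≤ ∑ y ∈ nb G A z, (nb G A y).card) ∧
  ((∀ x ∈ A, (nb G A x).card ≤ 3) → (qn G A B z).card + T.card ≤ 3 * (nb G A z).card) ∧
  ((∀ x ∈ A, (nb G A x).card ≤ 3) → (∃ v ∈ nb G A z, (nb G A v).card ≤ 2) → (qn G A B z).card + T.card + 1 ≤ 3 * (nb G A z).card) ∧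
  ((∀ x ∈ A, (nb G A x).card ≤ 3) → (∃ v ∈ nb G A z, (nb G A v).card ≤ 1) → (qn G A B z).card + T.card + 2 ≤ 3 * (nb G A z).card) ∧
  ((∀ x ∈ A, (nb G A x).card ≤ 3) → (∃ v ∈ nb G A z, ∃ v' ∈ nb G A z, v ≠ v' ∧ (nb G A v).card ≤ 2 ∧ (nb G A v').card ≤ 2) →
    (qn G A B z).card + T.card + 2 ≤ 3 * (nb G A z).card)

/-! ## Reducible configurations -/

/-- **CO1** (short). uses: `UNC_stmt GRD_stmt OUT_stmt`. `S = {v}`, `S' = insert v (nb G A v)`. If `nb G A v = ∅`: insert `v`. If `nb G A v = {u}`: insert `u` (`T = {v}`, the neighbour `v` of `u` has degree one: bound `9 - 2 - 1 = 6`), then `v` (`T = ∅`: at most `3`). -/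
def CO1_stmt : Prop := ∀ (V W : Type) [DecidableEq V] (G : SimpleGraph V) (R : W → W → Prop) (L : V → Finset W), Cov R L → ∀ (A : Finset V) (v : V),
  (∀ x ∈ A, (nb G A x).card ≤ 3) → v ∈ A → (nb G A v).card ≤ 1 → Col G R L (A \ {v}) (A \ {v}) → Col G R L A A

/-- **CO2** (short). uses: `UNC_stmt GRD_stmt OUT_stmt`. `nb G A v = {u, w}`, `S = {v}`, `S' = {v, u, w}`. Insert `w` (`T = {u, v}`, `sq G A w u` by `v`, bound `9 - 1 - 2 = 6`), then `u` (`T = {v}`: if `u` has two
neighbours of degree `≤ 2` the bound is `9 - 2 - 1 = 6`, if `u` has degree `≤ 2` it is `6 - 1 - 1`), then `v` (`T = ∅`, bound `6`). -/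
def CO2_stmt : Prop := ∀ (V W : Type) [DecidableEq V] (G : SimpleGraph V) (R : W → W → Prop) (L : V → Finset W), Cov R L → ∀ (A : Finset V) (v u : V),
  (∀ x ∈ A, (nb G A x).card ≤ 3) → v ∈ A → (nb G A v).card = 2 → u ∈ nb G A v →
  ((nb G A u).card ≤ 2 ∨ ∃ v' ∈ nb G A u, v' ≠ v ∧ (nb G A v').card ≤ 2) → Col G R L (A \ {v}) (A \ {v}) → Col G R L A A

/-- **CO3** (medium). uses: `UNC_stmt GRD_stmt OUT_stmt`. `v ≠ v'` (triangle). `nb G A v = {u, w}`, `nb G A v' = {u', w'}`, `S = {v, v'}`, `S' = {v, v', u, w, u', w'}`. `w ≠ u'` and `w' ≠ u` by `one`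
(`u'` would have the two neighbours `v`, `v'` of degree two), `w, w' ∉ {v, v'}` by `sep`. Insert `w` (`T = {u, v}`, bound `9 - 1 - 2`), `w'` (`T = {u', v'}`), `u` (`T = {u', v}`), `u'`
(`T = {v', v}`, `sq G A u' v` by `u`), `v`, `v'` (bound `6`). -/
def CO3_stmt : Prop := ∀ (V W : Type) [DecidableEq V] (G : SimpleGraph V) (R : W → W → Prop) (L : V → Finset W), Cov R L → G6 G → ∀ (A : Finset V) (v v' u u' : V),
  Red G A → v ∈ A → v' ∈ A → (nb G A v).card = 2 → (nb G A v').card = 2 → u ∈ nb G A v → u' ∈ nb G A v' → G.Adj u u' →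
  Col G R L (A \ {v, v'}) (A \ {v, v'}) → Col G R L A A

/-- **CO4** (medium). uses: `UNC_stmt GRD_stmt OUT_stmt`. The `v i` are different (`c4`: `v i = v j` would have the neighbours `u i`, `u j` in common with `x`). `nb G A (v i) = {u i, w i}`; `w i ≠ u j` for all `j`
(for `j ≠ i` by `one` at `u j`), `w i ≠ x` (triangle), `w i` is not one of the `v j` (`sep`), `x` is not one of the `v j` (its degree is three). `S = {x, v 0, v 1, v 2}`, `S' = S ∪ {u i} ∪ {w i}`. Insert the `w i` (`T = {u i, v i}`, bound `9 - 1 - 2`), the `u i`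
(`T = {x, v i}`, bound `9 - 1 - 2`), `x` (`T = {v 0, v 1, v 2}`, bound `9 - 3`), the `v i` (bound `6`). The `w i` need not be different. -/
def CO4_stmt : Prop := ∀ (V W : Type) [DecidableEq V] (G : SimpleGraph V) (R : W → W → Prop) (L : V → Finset W), Cov R L → G6 G → ∀ (A : Finset V) (x : V) (u v : Fin 3 → V),
  Red G A → x ∈ A → Function.Injective u → nb G A x = {u 0, u 1, u 2} → (∀ i, v i ∈ nb G A (u i) ∧ (nb G A (v i)).card = 2) →
  Col G R L (A \ {x, v 0, v 1, v 2}) (A \ {x, v 0, v 1, v 2}) → Col G R L A A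

/-- Every element of `X` has at most one `R`-neighbour in `Y`. -/
def Mt {W : Type} (R : W → W → Prop) (X Y : Finset W) : Prop := ∀ x ∈ X, ∀ y ∈ Y, ∀ y' ∈ Y, R x y → R x y' → y = y'

/-- **FAN** (short, medium). uses: nothing. Pure lists. Case not `P`: at most two `c ∈ Lu` have an `R`-neighbour in a two element subset of `Lp`; choose `cu` such that two elements of `Lp` are not neighbours of `cu`
(if `3 ≤ #Lp` any `cu`, otherwise `cu` without neighbour in `Lp`: every element of `Lp` has at most one neighbour in `Lu`). Then choose `cq ∈ Lq` (one left), `cb ∈ Lb` (`3 - 2`), `ca ∈ La` (`3 - 2`), `cp` (`2 - 1`). Case `P` (all of `Lp`, `Lq` at least `3`):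
choose `cu` such that three elements of `La` are left (if `4 ≤ #La` any `cu`, otherwise one of the four elements of `Lu` has no neighbour in `La`), then `cb` (`3 - 1` left, choose one), `cq` (`3 - 1 - 1`), `cp` (`3 - 1 - 1`), `ca` (`3 - 2`). -/
def FAN_stmt : Prop := ∀ (W : Type) (R : W → W → Prop) (Lu La Lb Lp Lq : Finset W) (P : Prop), (∀ a b, R a b → R b a) →
  Mt R Lu La → Mt R La Lu → Mt R Lu Lb → Mt R Lb Lu → Mt R Lu Lp → Mt R Lp Lu → Mt R Lu Lq → Mt R Lq Lu → Mt R La Lb → Mt R Lb La → Mt R La Lp → Mt R Lp La →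
  Mt R Lb Lq → Mt R Lq Lb → Mt R Lp Lq → Mt R Lq Lp →
  4 ≤ Lu.card → 3 ≤ La.card → 3 ≤ Lb.card → 2 ≤ Lp.card → 2 ≤ Lq.card → (P → 3 ≤ Lp.card ∧ 3 ≤ Lq.card) →
  ∃ cu ∈ Lu, ∃ ca ∈ La, ∃ cb ∈ Lb, ∃ cp ∈ Lp, ∃ cq ∈ Lq,
    ¬ R cu ca ∧ ¬ R cu cb ∧ ¬ R cu cp ∧ ¬ R cu cq ∧ ¬ R ca cb ∧ ¬ R ca cp ∧ ¬ R cb cq ∧ (P → ¬ R cp cq)

/-- **COR** (medium). uses: `LST_stmt FAN_stmt`. `f` colours `B`; the lists `L'` of `LST` for `u, a, b, p, q` have at least `4, 3, 3, 2, 2` elements, and `3, 3` for `p`, `q` if `P = sq G A p q`; `FAN`; colour the five vertices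
(`Function.update` five times, or an `if` cascade). The pairs `a, q` and `b, p` are not adjacent in the square, so all ten pairs are fine. -/
def COR_stmt : Prop := ∀ (V W : Type) [DecidableEq V] (G : SimpleGraph V) (R : W → W → Prop) (L : V → Finset W), Cov R L → ∀ (A B : Finset V) (u a b p q : V),
  u ∉ B → a ∉ B → b ∉ B → p ∉ B → q ∉ B → [u, a, b, p, q].Nodup → ¬ sq G A a q → ¬ sq G A b p →
  (qn G A B u).card ≤ 3 → (qn G A B a).card ≤ 4 → (qn G A B b).card ≤ 4 → (qn G A B p).card ≤ 5 → (qn G A B q).card ≤ 5 →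
  (sq G A p q → (qn G A B p).card ≤ 4 ∧ (qn G A B q).card ≤ 4) → Col G R L A B → Col G R L A (B ∪ {u, a, b, p, q})

/-- **CO5** (medium). uses: `UNC_stmt GRD_stmt OUT_stmt COR_stmt`. `v, s, t` have degree two; `nb G A v = {u, w}`, `nb G A s = {p, w1}`, `nb G A t = {q, w2}`. `p ≠ q` (`c4`: `u`, `p = q` with `a`, `b`), `s ≠ v`, `t ≠ v` (`c4`: `p` and `u` both
neighbours of `v` and of `a`). `s = t` is possible. `a`, `b` have no neighbour of degree two (`Far` with `u`); `K = {u, a, b, p, q}` has five elements. `w ∉ K` (`w = p`: `one` at `p` gives `s = v`; `w = a`: triangle). If `s ≠ t` then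
`w1 ∉ K` (`w1 = u`: `one` at `u` gives `s = v`; `w1 = q`: `one` at `q` gives `s = t`; `w1 = a`, `b`: they have no neighbour of degree two) and `w2 ∉ K`; if `s = t` then `w1 = q`, `w2 = p`. `S = {v, s, t}`, `S' = S ∪ K ∪ {w, w1, w2}`. Insert
`w` (`T = {u, v}`, bound `9 - 1 - 2`), and if `s ≠ t` `w1` (`T = {p, s}`), `w2` (`T = {q, t}`). Now `B = A \ (K ∪ S)`. `COR`: `u` has the uncoloured neighbours `v, a, b, p, q` (bound `9 - 1 - 5 = 3`), `a` has `u, b, p, v, s`
(bound `9 - 5 = 4`), `b` has `u, a, q, v, t`, `p` has `a, u, s` (bound `9 - 1 - 3 = 5`, with `q` it is `4`), `q` the same. Not `sq G A a q`: a common neighbour gives a closed walk of length five `a, u, b, q, c`; adjacent: a cycle of length four, `c4`.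
Insert `v`, `s`, `t` (bound `6`). -/
def CO5_stmt : Prop := ∀ (V W : Type) [DecidableEq V] (G : SimpleGraph V) (R : W → W → Prop) (L : V → Finset W), Cov R L → G6 G → ∀ (A : Finset V) (v u a b p q s t : V),
  Red G A → Far G A → v ∈ A → (nb G A v).card = 2 → u ∈ nb G A v → a ≠ b → v ≠ a → v ≠ b → nb G A u = {v, a, b} →
  p ∈ nb G A a → p ≠ u → q ∈ nb G A b → q ≠ u → s ∈ nb G A p → (nb G A s).card = 2 → t ∈ nb G A q → (nb G A t).card = 2 →
  Col G R L (A \ {v, s, t}) (A \ {v, s, t}) → Col G R L A A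

/-- **GIR** (short). uses: nothing. Cycles of length 3 and 4 (`c4`: if `y ≠ y'` then `x, y, z, y'` is a cycle); a closed walk of length five without triangles has five different vertices. -/
def GIR_stmt : Prop := ∀ (V : Type) (G : SimpleGraph V), (∀ (v : V) (c : G.Walk v v), c.IsCycle → 6 ≤ c.length) → G6 G

/-! ## Discharging -/

/-- **DIS** (medium). uses: nothing. Let `A2`, `A3` be the vertices of degree two, three in `A`, and for `v ∈ A2`, `z ∈ A3`: `ω v z = 2` if `v`, `z` are adjacent; otherwise, if `z` has a neighbour `u ∈ A` which is adjacent to `v`: `ω v z = 1` if two different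
neighbours of `z` satisfy `T8`, `ω v z = 2` if only one; `ω v z = 0` in all other cases. (a) `∑_{v ∈ A2} ω v z ≤ 2` for `z ∈ A3`: if `z` is `T8` then only its neighbour `v` of degree two counts (`one`, `Far`, `c3`); otherwise the `v` are the neighbours of degree two of the `T8` neighbours
of `z` (one for each, `one`), there are at most two by `h4`. (b) `∑_{z ∈ A3} ω v z ≥ 10` for `v ∈ A2`: the neighbours `u`, `w` of `v` have degree three (`sep`) and give `4`; the other neighbours `a, b` of `u` and `c, d` of `w` are different (`c4`, `c3`), not adjacent to `v`, they have degree three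
(`one` at `u`), and by `h5` not both of `a`, `b` have a second `T8` neighbour: they give at least `3`, the same for `c`, `d`. So `10 #A2 ≤ 2 #A3`, and `17 (#A2 + #A3) ≤ 6 (2 #A2 + 3 #A3)`. -/
def DIS_stmt : Prop := ∀ (V : Type) (G : SimpleGraph V) (A : Finset V), G6 G → Red G A → Far G A →
  (∀ x ∈ A, (nb G A x).card = 3 → ∃ y ∈ nb G A x, ¬ T8 G A y) →
  (∀ v ∈ A, (nb G A v).card = 2 → ∀ u ∈ nb G A v, ∀ a ∈ nb G A u, ∀ b ∈ nb G A u, a ≠ b → a ≠ v → b ≠ v →
    (∃ p ∈ nb G A a, p ≠ u ∧ T8 G A p) → (∃ q ∈ nb G A b, q ≠ u ∧ T8 G A q) → False) →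
  17 * A.card ≤ 6 * ∑ x ∈ A, (nb G A x).card

/-- **IND** (medium). uses: `CO1_stmt CO2_stmt CO3_stmt CO4_stmt CO5_stmt DIS_stmt`. Strong induction on `A`. `A = ∅`: every `f` with `f v ∈ L v`. Otherwise, if `Col G R L A A` is false then by CO1, CO2: `Red G A` (a vertex `x` with two different neighbours `y`, `z` of degree two: CO2 for `v = y`, `u = x`, `v' = z`;
a vertex `x` of degree two with a neighbour `y` of degree at most two: CO2 for `v = x`, `u = y`), by CO3: `Far G A`, by CO4: every vertex `x ∈ A` of degree three has a neighbour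
which is not `T8`, by CO5 the last hypothesis of DIS (`nb G A u = {v, a, b}` as `u` has degree three). Then DIS contradicts the sparseness. -/
def IND_stmt : Prop := ∀ (V W : Type) [DecidableEq V] (G : SimpleGraph V) (R : W → W → Prop) (L : V → Finset W), Cov R L → G6 G →
  (∀ (A : Finset V), ∀ x ∈ A, (nb G A x).card ≤ 3) → (∀ A : Finset V, A.Nonempty → 6 * ∑ x ∈ A, (nb G A x).card < 17 * A.card) →
  ∀ A : Finset V, Col G R L A A

end Pool.Agent.helper62.DP7
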